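import Mathlib
import Pool.Agent.N704.VP4

/-!
# The support of the variance-profile deterministic equivalent is a full disc

For every `n ≥ 1` and every irreducible nonnegative `n × n` matrix `A`, if the deterministic
equivalent `μ_A` is defined, then its support is the closed disc of radius `√ρ(V)`; in particular
the support is connected.
-/

set_option autoImplicit false

namespace Pool.Agent.Results.MP_44eb1e_pr.SupportDisc

open MeasureTheory Matrix

/-- The matrix `V = (1/n) (σ_ij²)`. -/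
noncomputable def V {n : ℕ} (A : Matrix (Fin n) (Fin n) ℝ) : Matrix (Fin n) (Fin n) ℝ :=
  Matrix.of fun i j => (1 / (n : ℝ)) * (A i j) ^ 2

/-- The spectral radius `ρ(V)`. -/
noncomputable def rho {n : ℕ} (A : Matrix (Fin n) (Fin n) ℝ) : ℝ :=
  (spectralRadius ℂ ((V A).map (algebraMap ℝ ℂ))).toReal

/-- `q` and `q'` are nonnegative and solve the Master Equations at `s`. -/
structure IsSol {n : ℕ} (A : Matrix (Fin n) (Fin n) ℝ) (s : ℝ) (q q' : Fin n → ℝ) : Prop where
  nonneg : ∀ i, 0 ≤ q i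
  nonneg' : ∀ i, 0 ≤ q' i
  eq_q : ∀ i, q i = ((V A)ᵀ *ᵥ q) i / (s ^ 2 + ((V A) *ᵥ q') i * ((V A)ᵀ *ᵥ q) i)
  eq_q' : ∀ i, q' i = ((V A) *ᵥ q') i / (s ^ 2 + ((V A) *ᵥ q') i * ((V A)ᵀ *ᵥ q) i)
  sum_eq : ∑ i, q i = ∑ i, q' i

/-- The selected solution: at each `s > 0` a solution, nonzero for `s < √ρ(V)` and zero for
`s ≥ √ρ(V)`. -/
structure IsSelected {n : ℕ} (A : Matrix (Fin n) (Fin n) ℝ) (q q' : ℝ → Fin n → ℝ) : Prop where
  sol : ∀ s, 0 < s → IsSol A s (q s) (q' s)
  ne_zero : ∀ s, 0 < s → s < Real.sqrt (rho A) → ¬ (q s = 0 ∧ q' s = 0)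
  eq_zero : ∀ s, 0 < s → Real.sqrt (rho A) ≤ s → q s = 0 ∧ q' s = 0

/-- `F_A(s) = 1 - (1/n) ⟨q(s), V q̃(s)⟩`. -/
noncomputable def F {n : ℕ} (A : Matrix (Fin n) (Fin n) ℝ) (q q' : ℝ → Fin n → ℝ) (s : ℝ) : ℝ :=
  1 - (1 / (n : ℝ)) * (q s ⬝ᵥ ((V A) *ᵥ q' s))

/-- `μ` is the deterministic equivalent `μ_A`: a radially symmetric probability measure on `ℂ`
with `μ {|z| ≤ s} = F_A(s)` for all `s > 0`. -/
structure IsDetEquiv {n : ℕ} (A : Matrix (Fin n) (Fin n) ℝ) (μ : Measure ℂ) : Prop where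
  isProb : IsProbabilityMeasure μ
  radial : ∀ θ : ℝ, μ.map (fun z => Complex.exp (θ * Complex.I) * z) = μ
  cdf : ∃ q q' : ℝ → Fin n → ℝ, IsSelected A q q' ∧
    ∀ s : ℝ, 0 < s → μ (Metric.closedBall 0 s) = ENNReal.ofReal (F A q q' s)

theorem result (n : ℕ) (hn : 1 ≤ n) (A : Matrix (Fin n) (Fin n) ℝ) (hA : ∀ i j, 0 ≤ A i j)
    (hirr : ∀ i j, Relation.ReflTransGen (fun a b => 0 < A a b) i j)
    (μ : Measure ℂ) (hμ : IsDetEquiv A μ) :
    μ.support = Metric.closedBall 0 (Real.sqrt (rho A)) ∧ IsConnected μ.support := by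
  have : Nonempty (Fin n) := ⟨⟨0, hn⟩⟩
  have hn0 : (0:ℝ) < n := by exact_mod_cast hn
  have hV : ∀ i j, 0 ≤ V A i j := fun i j => by
    show 0 ≤ (1 / (n : ℝ)) * (A i j) ^ 2
    positivity
  have hVpos : ∀ i j, 0 < A i j → 0 < V A i j := fun i j h => by
    show 0 < (1 / (n : ℝ)) * (A i j) ^ 2
    positivity
  have hc : N704VP.SC (V A) := fun i j => Relation.ReflTransGen.mono (fun a b h => hVpos a b h) i j (hirr i j)
  have := hμ.isProb
  obtain ⟨q, r, hsel, hcdf⟩ := hμ.cdf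
  have hsol : ∀ s, 0 < s → N704VP.Sol (V A) s (q s) (r s) := fun s hs =>
    ⟨(hsel.sol s hs).nonneg, (hsel.sol s hs).nonneg', (hsel.sol s hs).eq_q, (hsel.sol s hs).eq_q',
      (hsel.sol s hs).sum_eq⟩
  have hF : ∀ s, F A q r s = N704VP.FF (V A) (q s) (r s) := fun s => by
    unfold F N704VP.FF
    rw [Fintype.card_fin]
    rfl
  have hrho : 0 ≤ rho A := ENNReal.toReal_nonneg
  have hmain : μ.support = Metric.closedBall 0 (Real.sqrt (rho A)) := by
    refine N704VP.support_eq μ hμ.radial _ (Real.sqrt_nonneg _) (F A q r) hcdf ?_ ?_ ?_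
    · intro s hs _
      rw [hF]
      exact N704VP.FF_nonneg hV hs (hsol s hs)
    · intro s hs hs'
      rw [hF]
      obtain ⟨h1, -⟩ := hsel.eq_zero s hs hs'
      unfold N704VP.FF
      rw [h1]
      simp
    · intro a b c ha hab hb hcst
      have hR : 0 < Real.sqrt (rho A) := by linarith
      have hρ : 0 < rho A := Real.sqrt_pos.1 hR
      -- some entry of V is positive
      have hpos : ∃ i j, 0 < V A i j := by
        by_contra hno
        push Not at hno
        have hV0 : V A = 0 := by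
          ext i j
          exact le_antisymm (hno i j) (hV i j)
        have : rho A = 0 := by
          unfold rho
          rw [hV0, Matrix.map_zero _ (map_zero _)]
          simp
        linarith
      obtain ⟨w, Λ, hw, hΛ, hVw⟩ := N704VP.pf_exists hV hc hpos
      have hsr := N704VP.spectralRadius_eq hV hw hΛ hVw
      have hρΛ : rho A = Λ := by
        unfold rho
        rw [hsr, ENNReal.toReal_ofReal hΛ.le]
      rw [hρΛ] at hb
      refine N704VP.not_const hV hc hw hΛ hVw (fun s h1 _ => hsol s h1)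
        (fun s h1 h2 => hsel.ne_zero s h1 (by rw [hρΛ]; exact h2)) ha hab hb c ?_
      intro s h1 h2
      rw [← hF]
      exact hcst s h1 h2
  refine ⟨hmain, ?_⟩
  rw [hmain]
  exact (convex_closedBall (0:ℂ) _).isConnected ⟨0, Metric.mem_closedBall_self (Real.sqrt_nonneg _)⟩

end Pool.Agent.Results.MP_44eb1e_pr.SupportDisc
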